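import Pool.Agent.QSN.StmtsE
import Pool.Agent.Helper27_QSX.ACM

set_option autoImplicit false

/-!
# QSN, row EXA: the examples
-/

namespace Pool.Agent.QSN.H77

open Matrix Finset Pool.Agent.QSX Pool.Agent.QSN

theorem alg_dim {X Y : Dat} (h : AlgEmb X Y) :
    Module.finrank ℝ X.n ≤ Module.finrank ℝ Y.n := by
  obtain ⟨T, _, hT, _, hTi, _, _⟩ := h
  exact LinearMap.finrank_le_finrank_of_injective (f := T.codRestrict Y.n hT)
    (fun x y h => hTi (congrArg Subtype.val h))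

theorem exa_refl (X : Dat) : AlgEmb X X :=
  ⟨X.n.subtype, X.b.subtype, fun x => x.2, fun a => a.2, Subtype.val_injective,
    Subtype.val_injective, fun _ _ => rfl, fun _ _ => rfl⟩

/-- **EXA** -/
theorem exa (fnm : FnmStmt) (cvm : CvmStmt) (msd : MsdStmt) (abd : AbdStmt) (dsm : DsmStmt)
    (mso : MsoStmt) (abo : AboStmt) (oem : OemStmt) (msu : MsuStmt) (abu : AbuStmt)
    (uem : UemStmt) : ExaStmt := by
  refine ⟨?_, ?_, ?_⟩
  · intro k n 𝔻 𝔻' hk hn hR hcmp
    refine (fnm (datD n 𝔻) (datD n 𝔻') (cvm _ (msd k n 𝔻 hk hn hR)) (abd k n 𝔻' hk)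
      (dsm k n 𝔻 𝔻' hk (by omega)).1).1.trans ⟨fun h => ?_, fun h => ?_⟩
    · by_contra hcon
      have hle : 𝔻' ≤ 𝔻 := hcmp.resolve_left hcon
      have hlt : 𝔻' < 𝔻 := lt_of_le_not_ge hle hcon
      have h1 := (dsm k n 𝔻' 𝔻 hk (by omega)).2 hlt
      have h2 := alg_dim h
      omega
    · exact Pool.Agent.QSX.H10.alg_pad hk h n 0
  · intro p d d' hp hd
    refine (fnm (datO p d) (datO p d') (cvm _ (mso p d hp hd)) (abo p d')
      ((oem p d (by omega)).2.1.trans (oem p d' (by omega)).2.1.symm)).1.trans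
      ⟨fun h => ?_, fun h => ?_⟩
    · by_contra hcon
      have hmono : StrictMono fun d => Module.finrank ℝ (datO p d).n :=
        strictMono_nat_of_lt_succ fun d => (oem p d (by omega)).2.2
      have h1 : Module.finrank ℝ (datO p d').n < Module.finrank ℝ (datO p d).n :=
        hmono (by omega)
      have h2 := alg_dim h
      omega
    · induction d', h using Nat.le_induction with
      | base => exact exa_refl _
      | succ e _ ih =>
        exact Pool.Agent.QSX.H27.acm _ _ _ ih (oem p e (by omega)).1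
  · intro k p 𝔻 𝔻' ε hε hk hp hH hT hcmp
    refine (fnm (datU p 𝔻 ε hε) (datU p 𝔻' ε hε) (cvm _ (msu k p 𝔻 ε hε hk hp hH))
      (abu k p 𝔻' ε hε hk) (uem k p 𝔻 𝔻' ε hε hk hp hT).2.1).1.trans ⟨fun h => ?_, fun h => ?_⟩
    · by_contra hcon
      have hle : 𝔻' ≤ 𝔻 := hcmp.resolve_left hcon
      have hlt : 𝔻' < 𝔻 := lt_of_le_not_ge hle hcon
      have h1 := (uem k p 𝔻' 𝔻 ε hε hk hp hH.2.1).2.2 hlt
      have h2 := alg_dim h
      omega
    · exact (uem k p 𝔻 𝔻' ε hε hk hp hT).1 h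

end Pool.Agent.QSN.H77
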